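import Mathlib
import Pool.Agent.H631R2.OmegaF

set_option autoImplicit false

/-!
# Adding `κ` Cohen reals gives `2 ^< κ ↛ (κ, 4)³`, for every `κ` of cofinality `ω`

This follows `Pool.Agent.H631R2.OmegaF`, where `κ = ℵ_ω`.
-/

open Cardinal Set

namespace Pool.Agent.Y408.SG

open Pool.Agent.Helper292.SP Pool.Agent.H631R2

/-- a cardinal with a cofinal sequence of type `ω` -/
structure Cf where
  κ : Cardinal.{0}
  c : ℕ → Cardinal.{0}
  c0 : ∀ n, ℵ₀ ≤ c n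
  cm : StrictMono c
  ck : ∀ n, c n < κ
  cof : ∀ x < κ, ∃ n, x ≤ c n

namespace Cf

variable (R : Cf)

abbrev NN (n : ℕ) : Type := (R.c n).ord.ToType
abbrev KK : Type := R.κ.ord.ToType
abbrev LL : Type := ((2 : Cardinal.{0}) ^< R.κ).ord.ToType
abbrev LA : Type := ((2 : Cardinal.{0}) ^ ((2 : Cardinal.{0}) ^< R.κ)).ord.ToType

theorem κ0 : ℵ₀ ≤ R.κ := (R.c0 0).trans (R.ck 0).le

theorem succ_lt (n : ℕ) : Order.succ (R.c n) < R.κ :=
  (Order.succ_le_of_lt (R.cm (Nat.lt_succ_self n))).trans_lt (R.ck (n + 1))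

noncomputable def P0 : H631R2.Par where
  M := ℕ
  hM := by rw [Cardinal.mk_nat]; exact Cardinal.isRegular_aleph0
  hMi i := by
    rw [Cardinal.mk_nat]
    exact (Set.finite_Iio i).lt_aleph0
  κ n := Order.succ (R.c n)
  κr n := Cardinal.isRegular_succ (R.c0 n)
  κM n := by
    rw [Cardinal.mk_nat]
    exact (R.c0 n).trans_lt (Order.lt_succ _)
  κm := by
    intro i j h
    show Order.succ (R.c i) < Order.succ (R.c j)
    rw [Order.succ_lt_succ_iff]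
    exact R.cm h

theorem lam_P0 : R.P0.lam = 2 ^< R.κ := by
  have := R.P0.nonempty
  apply le_antisymm
  · exact ciSup_le fun n => Cardinal.le_powerlt 2 (R.succ_lt n)
  · rw [Cardinal.powerlt_le]
    intro x hx
    obtain ⟨n, hn⟩ := R.cof x hx
    exact (Cardinal.power_le_power_left two_ne_zero (hn.trans (Order.le_succ _))).trans
      (R.P0.le_lam n)

instance : Nonempty R.KK := by
  rw [← Cardinal.mk_ne_zero_iff, Cardinal.mk_ord_toType]
  exact (Cardinal.aleph0_pos.trans_le R.κ0).ne'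

theorem exists_KKb (n : ℕ) : ∃ S : Set R.KK, #S = Order.succ (R.c n) := by
  have h1 : Order.succ (R.c n) ≤ #(univ : Set R.KK) := by
    rw [Cardinal.mk_univ, Cardinal.mk_ord_toType]
    exact (R.succ_lt n).le
  obtain ⟨S, _, hS⟩ := Cardinal.le_mk_iff_exists_subset.mp h1
  exact ⟨S, hS⟩

noncomputable def R0 : R.P0.Coord where
  K := R.KK
  Kb n := (R.exists_KKb n).choose
  hKb n := (R.exists_KKb n).choose_spec

noncomputable abbrev S0 : Setting := H631R2.Par.toSetting2 R.R0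

/-- The forcing: finite partial functions, adding `κ` Cohen reals. -/
abbrev PP : Type := Cond (R.KK × ℕ)

theorem lt_mk_KK (n : ℕ) : R.c n < #R.KK := by
  rw [Cardinal.mk_ord_toType]
  exact R.ck n

theorem forced3_LL (p : R.PP) : p ∈ NArrow R.PP R.LL R.KK 4 3 := by
  have h := forced3 (S := R.S0) (OrderIso.refl ℕ) R.c R.c0 (fun _ => rfl) (K' := R.KK)
    R.lt_mk_KK p
  have h2 : p ∈ NArrow R.PP (R.P0.lam.ord.ToType) R.KK 4 3 := h
  rw [lam_P0] at h2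
  exact h2

theorem forced4_LA (p : R.PP) : p ∈ NArrow R.PP R.LA R.KK 5 4 := by
  obtain ⟨eq⟩ : Nonempty (R.LA ≃ (R.P0.lam.ord.ToType → Bool)) := by
    rw [← Cardinal.eq, Cardinal.mk_ord_toType, Cardinal.mk_arrow, Cardinal.mk_ord_toType, lam_P0]
    simp
  exact forced4 (S := R.S0) (OrderIso.refl ℕ) R.c R.c0 (fun _ => rfl) (Λ := R.LA) (K' := R.KK)
    (e := eq) eq.injective R.lt_mk_KK p

/-- In the extension `2 ^ |N n| < |L|` for all `n`. -/
def HypLt (P : Type) [Preorder P] (N : ℕ → Type) (L : Type) [LinearOrder L] : Set P :=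
  fall fun n : ℕ => fex fun a : L => PowLE P (N n) (Iio a)

theorem main (h1 : R.κ < (2 : Cardinal.{0}) ^< R.κ)
    (h2 : ∀ x < R.κ, (2 : Cardinal.{0}) ^ x < (2 : Cardinal.{0}) ^< R.κ) (p : R.PP) :
    (∀ X Y : Type, ℵ₀ ≤ #X → #X < #Y → p ∈ NoOnto R.PP X Y) ∧
    p ∈ IsSupPow R.PP R.NN R.LL ∧ p ∈ IsPow R.PP R.LL R.LA ∧ p ∈ HypOne R.PP R.NN R.KK ∧
    p ∈ HypLt R.PP R.NN R.LL ∧
    p ∈ NArrow R.PP R.LL R.KK 4 3 ∧ p ∈ NArrow R.PP R.LA R.KK 5 4 := by
  have hP : CCC R.PP := ccc_cond _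
  have hopt : #(Option R.PP) ≤ R.κ := by
    refine mk_option_cond R.κ0 ?_
    rw [Cardinal.mk_prod, Cardinal.lift_id, Cardinal.lift_id, Cardinal.mk_ord_toType,
      Cardinal.mk_nat]
    exact (mul_le_mul' le_rfl R.κ0).trans (Cardinal.mul_eq_self R.κ0).le
  have hLL : #R.LL = (2 : Cardinal.{0}) ^< R.κ := Cardinal.mk_ord_toType _
  have hLA : #R.LA = (2 : Cardinal.{0}) ^ ((2 : Cardinal.{0}) ^< R.κ) :=
    Cardinal.mk_ord_toType _
  have hNN : ∀ n, #(R.NN n) = R.c n := fun n => Cardinal.mk_ord_toType _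
  -- below the weak power
  have below : ∀ x : Cardinal.{0}, x < (2 : Cardinal.{0}) ^< R.κ →
      ∃ n : ℕ, x < 2 ^ R.c n := by
    intro x hx
    by_contra hcon
    push Not at hcon
    refine absurd hx (not_lt.mpr ?_)
    rw [Cardinal.powerlt_le]
    intro y hy
    obtain ⟨n, hn⟩ := R.cof y hy
    exact (Cardinal.power_le_power_left two_ne_zero hn).trans (hcon n)
  have hle : ∀ n : ℕ, (2 : Cardinal.{0}) ^ R.c n ≤ (2 : Cardinal.{0}) ^< R.κ := fun n =>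
    Cardinal.le_powerlt 2 (R.ck n)
  have hlt : ∀ n : ℕ, (2 : Cardinal.{0}) ^ R.c n < (2 : Cardinal.{0}) ^< R.κ := fun n =>
    h2 _ (R.ck n)
  obtain ⟨m0, hm0⟩ := below _ h1
  have hmono : Monotone R.c := R.cm.monotone
  have hmax : ∀ n : ℕ, ∃ m : ℕ, n ≤ m ∧ R.κ < (2 : Cardinal.{0}) ^ R.c m := by
    intro n
    refine ⟨max n m0, le_max_left _ _, hm0.trans_le ?_⟩
    exact Cardinal.power_le_power_left two_ne_zero (hmono (le_max_right n m0))
  have hNNle : ∀ n m : ℕ, n ≤ m → #(R.NN n) ≤ R.c m := by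
    intro n m h
    rw [hNN]
    exact hmono h
  have hlamω : R.κ < (2 : Cardinal.{0}) ^ ((2 : Cardinal.{0}) ^< R.κ) :=
    h1.trans (Cardinal.cantor _)
  refine ⟨fun X Y hX hXY => hP.noOnto hX hXY p, ⟨?_, ?_⟩, ⟨?_, ?_⟩, ?_, ?_, R.forced3_LL p,
    R.forced4_LA p⟩
  · intro n
    obtain ⟨m, hnm, hm⟩ := hmax n
    exact powLE_of hP (R.c0 _) (hNNle n m hnm) (hopt.trans hm.le) (hLL ▸ hle m) p
  · intro a
    refine mem_fex.mpr fun q _ => ?_
    have h3 : #(Iio a) < (2 : Cardinal.{0}) ^< R.κ :=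
      Cardinal.mk_Iio_toType_ord_lt a
    obtain ⟨n, hn⟩ := below _ h3
    refine ⟨q, le_rfl, n, hP.not_powLE ?_ ?_ q⟩
    · rw [hNN]; exact R.c0 _
    · rw [hNN]; exact hn
  · exact powLE_of hP (μ := #R.LL) (by rw [hLL]; exact R.κ0.trans h1.le)
      le_rfl (by rw [hLL]; exact hopt.trans hlamω.le) (by rw [hLL, hLA]) p
  · intro b
    refine hP.not_powLE ?_ ?_ p
    · rw [hLL]; exact R.κ0.trans h1.le
    · rw [hLL]; exact Cardinal.mk_Iio_toType_ord_lt b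
  · refine mem_fex.mpr fun q _ => ⟨q, le_rfl, m0, hP.not_powLE ?_ ?_ q⟩
    · rw [hNN]; exact R.c0 _
    · rw [hNN, Cardinal.mk_ord_toType]; exact hm0
  · intro n
    refine mem_fex.mpr fun q _ => ⟨q, le_rfl, ?_⟩
    obtain ⟨m, hnm, hm⟩ := hmax n
    obtain ⟨a, ⟨ea⟩⟩ := seg (2 ^ R.c m) ((2 : Cardinal.{0}) ^< R.κ) (hlt m)
    have ha : #(Iio a) = (2 : Cardinal.{0}) ^ R.c m := by
      rw [← Cardinal.mk_congr ea.toEquiv, Cardinal.mk_ord_toType]
    exact ⟨a, powLE_of hP (R.c0 _) (hNNle n m hnm) (hopt.trans hm.le) ha.ge q⟩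

end Cf

end Pool.Agent.Y408.SG
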