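import Mathlib
import Pool.Agent.H631R2.Neg

set_option autoImplicit false

/-!
# `2 ^ (2 ^< κ) ↛ (κ, 5)⁴` for singular `κ` whose cofinality is not weakly compact
-/

open Cardinal Set Ordinal Pool.Agent.H631R2

namespace Pool.Agent.Y408.SG

/-- the partition relation `κ → (l₀, l₁)^r` -/
def Arrow (κ l₀ l₁ : Cardinal.{0}) (r : ℕ) : Prop :=
  ∀ (α : Type) (c : Finset α → Bool), #α = κ →
    (∃ H : Set α, #H = l₀ ∧ ∀ s : Finset α, (s : Set α) ⊆ H → s.card = r → c s = false) ∨
    (∃ H : Set α, #H = l₁ ∧ ∀ s : Finset α, (s : Set α) ⊆ H → s.card = r → c s = true)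

/-! ### Sierpinski's colouring -/

section Sierpinski

variable {M A : Type} [LinearOrder M] [WellFoundedLT M] [LinearOrder A] [WellFoundedLT A]

/-- first difference in `Q`, with values `false`, `true` -/
def Lx (Q : A → Prop) (x y : A → Bool) : Prop :=
  ∃ a, Q a ∧ (∀ b < a, x b = y b) ∧ x a = false ∧ y a = true

theorem next (hM : (#M).IsRegular) (hMi : ∀ i : M, #(Iio i) < #M) {I : Set M} (hI : #I = #M) (i : M) :
    ∃ j ∈ I, i < j ∧ ∀ l ∈ I, i < l → j ≤ l := by
  have hne : ({j | j ∈ I ∧ i < j} : Set M).Nonempty := by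
    by_contra hcon
    have hsub : I ⊆ Iio i ∪ {i} := by
      intro j hj
      by_contra h
      refine hcon ⟨j, hj, ?_⟩
      have h1 : ¬ j < i := fun h' => h (Or.inl h')
      have h2 : j ≠ i := fun h' => h (Or.inr h')
      exact lt_of_le_of_ne (not_lt.1 h1) h2.symm
    have h1 : #I ≤ #(Iio i ∪ {i} : Set M) := Cardinal.mk_le_mk_of_subset hsub
    have h2 : #(Iio i ∪ {i} : Set M) ≤ #(Iio i) + #({i} : Set M) := Cardinal.mk_union_le _ _
    have h3 : #(Iio i) + #({i} : Set M) < #M := by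
      apply Cardinal.add_lt_of_lt hM.aleph0_le (hMi i)
      rw [Cardinal.mk_singleton]
      exact Cardinal.one_lt_aleph0.trans_le hM.aleph0_le
    exact absurd hI (ne_of_lt (h1.trans_lt (h2.trans_lt h3)))
  have wf : WellFounded ((· < ·) : M → M → Prop) := wellFounded_lt
  have hm := wf.min_mem _ hne
  exact ⟨wf.min _ hne, hm.1, hm.2, fun l hl hil => not_lt.1 (wf.not_lt_min _
    (show l ∈ ({j | j ∈ I ∧ i < j} : Set M) from ⟨hl, hil⟩))⟩

theorem step (hM : (#M).IsRegular) (hMi : ∀ i : M, #(Iio i) < #M) (hA : #A < #M)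
    (e : M → A → Bool) (Q : A → Prop) (I : Set M) (hI : #I = #M)
    (h : ∀ i ∈ I, ∀ j ∈ I, i < j → Lx Q (e i) (e j)) :
    ∃ δ, Q δ ∧ ∃ I' : Set M, #I' = #M ∧ ∀ i ∈ I', ∀ j ∈ I', i < j → Lx (· < δ) (e i) (e j) := by
  choose nx hnx1 hnx2 hnx3 using next hM hMi hI
  have h1 : ∀ i : I, Lx Q (e i) (e (nx i)) := fun i => h i i.2 _ (hnx1 i) (hnx2 i)
  choose d hd1 hd2 hd3 hd4 using h1
  obtain ⟨δ, hδ⟩ := Cardinal.infinite_pigeonhole_card d (#M) hI.ge hM.aleph0_le
    (by rw [hM.cof_ord]; exact hA)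
  have hne : (d ⁻¹' {δ}).Nonempty := by
    rw [Set.nonempty_iff_ne_empty]
    intro h0
    rw [h0, Cardinal.mk_emptyCollection] at hδ
    exact absurd (hM.pos) (not_lt.2 hδ)
  obtain ⟨i0, hi0⟩ := hne
  refine ⟨δ, ?_, Subtype.val '' (d ⁻¹' {δ}), ?_, ?_⟩
  · rw [← show d i0 = δ from hi0]; exact hd1 i0
  · rw [Cardinal.mk_image_eq Subtype.val_injective]
    exact le_antisymm ((Cardinal.mk_set_le _).trans hI.le) hδ
  · rintro _ ⟨i, hi, rfl⟩ _ ⟨j, hj, rfl⟩ hij
    have hi' : d i = δ := hi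
    have hj' : d j = δ := hj
    have hle : nx i ≤ j := hnx3 i j j.2 hij
    have a1 : ∀ b < δ, e i b = e (nx i) b := by rw [← hi']; exact hd2 i
    have a2 : e (nx i) δ = true := by rw [← hi']; exact hd4 i
    have a3 : e j δ = false := by rw [← hj']; exact hd3 j
    rcases hle.eq_or_lt with heq | hlt
    · rw [heq, a3] at a2
      exact absurd a2 (by simp)
    · obtain ⟨ε, -, b1, b2, b3⟩ := h _ (hnx1 i) _ j.2 hlt
      rcases lt_trichotomy ε δ with hc | hc | hc
      · exact ⟨ε, hc, fun b hb => (a1 b (hb.trans hc)).trans (b1 b hb), (a1 ε hc).trans b2, b3⟩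
      · rw [hc, a2] at b2
        exact absurd b2 (by simp)
      · have := b1 δ hc
        rw [a2, a3] at this
        exact absurd this (by simp)

theorem no_mono (hM : (#M).IsRegular) (hMi : ∀ i : M, #(Iio i) < #M) (hA : #A < #M)
    (e : M → A → Bool) (I : Set M) (hI : #I = #M)
    (h : ∀ i ∈ I, ∀ j ∈ I, i < j → Lx (fun _ => True) (e i) (e j)) : False := by
  have key : ∀ a : A, ∀ I : Set M, #I = #M →
      ¬ ∀ i ∈ I, ∀ j ∈ I, i < j → Lx (· < a) (e i) (e j) := by
    intro a
    induction a using WellFoundedLT.induction with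
    | ind a ih =>
      intro I hI h
      obtain ⟨δ, hδ, I', hI', h'⟩ := step hM hMi hA e _ I hI h
      exact ih δ hδ I' hI' h'
  obtain ⟨δ, -, I', hI', h'⟩ := step hM hMi hA e _ I hI h
  exact key δ I' hI' h'

end Sierpinski

/-- `μ ↛ (μ)²₂` if `μ` is regular and `θ < μ ≤ 2 ^ θ` -/
theorem neg_pairs {μ θ : Cardinal.{0}} (hμ : μ.IsRegular) (hθ : θ < μ) (h : μ ≤ 2 ^ θ) :
    ¬ Arrow μ μ μ 2 := by
  classical
  intro harr
  have hMm : #(μ.ord.ToType) = μ := Cardinal.mk_ord_toType μ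
  have hAm : #(θ.ord.ToType) = θ := Cardinal.mk_ord_toType θ
  have hM : (#(μ.ord.ToType)).IsRegular := by rw [hMm]; exact hμ
  have hMi : ∀ i : μ.ord.ToType, #(Iio i) < #(μ.ord.ToType) := by
    intro i; rw [hMm]; exact Cardinal.mk_Iio_toType_ord_lt i
  have hA : #(θ.ord.ToType) < #(μ.ord.ToType) := by rw [hMm, hAm]; exact hθ
  have hle : #(μ.ord.ToType) ≤ #(θ.ord.ToType → Bool) := by
    rw [hMm, Cardinal.mk_arrow]
    simp only [Cardinal.lift_id, Cardinal.mk_bool, hAm]
    exact h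
  rw [Cardinal.le_def] at hle
  obtain ⟨e⟩ := hle
  have hlx : ∀ x y : θ.ord.ToType → Bool, x ≠ y → ¬ Lx (fun _ => True) x y → Lx (fun _ => True) y x := by
    intro x y hxy hn
    have hne : ({a | x a ≠ y a} : Set (θ.ord.ToType)).Nonempty := by
      by_contra hcon
      apply hxy
      funext a
      by_contra ha
      exact hcon ⟨a, ha⟩
    have wf : WellFounded ((· < ·) : θ.ord.ToType → θ.ord.ToType → Prop) := wellFounded_lt
    have hm : x (wf.min _ hne) ≠ y (wf.min _ hne) := wf.min_mem _ hne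
    have hb : ∀ b < wf.min _ hne, x b = y b := by
      intro b hb
      by_contra hcon
      exact wf.not_lt_min _ (show b ∈ ({a | x a ≠ y a} : Set (θ.ord.ToType)) from hcon) hb
    cases hx : x (wf.min _ hne) with
    | false =>
      cases hy : y (wf.min _ hne) with
      | false => rw [hx, hy] at hm; exact absurd rfl hm
      | true => exact absurd ⟨_, trivial, hb, hx, hy⟩ hn
    | true =>
      cases hy : y (wf.min _ hne) with
      | false => exact ⟨_, trivial, fun b hb' => (hb b hb').symm, hy, hx⟩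
      | true => rw [hx, hy] at hm; exact absurd rfl hm
  let c : Finset (μ.ord.ToType) → Bool := fun s =>
    decide (∃ i ∈ s, ∃ j ∈ s, i < j ∧ Lx (fun _ => True) (e i) (e j))
  have hc : ∀ i j : μ.ord.ToType, i < j →
      (c {i, j} = true ↔ Lx (fun _ => True) (e i) (e j)) := by
    intro i j hij
    constructor
    · intro h
      obtain ⟨a, ha, b, hb, hab, hl⟩ := of_decide_eq_true h
      rw [Finset.mem_insert, Finset.mem_singleton] at ha hb
      rcases ha with rfl | rfl <;> rcases hb with rfl | rfl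
      · exact absurd hab (lt_irrefl _)
      · exact hl
      · exact absurd hab hij.asymm
      · exact absurd hab (lt_irrefl _)
    · intro h
      exact decide_eq_true ⟨i, by simp, j, by simp, hij, h⟩
  rcases harr _ c hMm with ⟨H, hH, hs⟩ | ⟨H, hH, hs⟩
  · refine no_mono hM hMi hA (fun i a => !(e i a)) H (hH.trans hMm.symm) ?_
    intro i hi j hj hij
    have h1 := hs {i, j} (by
      intro x hx
      simp only [Finset.coe_insert, Finset.coe_singleton, mem_insert_iff, mem_singleton_iff] at hx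
      rcases hx with rfl | rfl <;> assumption) (Finset.card_pair hij.ne)
    have h2 : ¬ Lx (fun _ => True) (e i) (e j) := by
      intro h
      rw [(hc i j hij).2 h] at h1
      exact absurd h1 (by simp)
    obtain ⟨a, -, h3, h4, h5⟩ := hlx _ _ (fun h => hij.ne (e.injective h)) h2
    exact ⟨a, trivial, fun b hb => by simp only; rw [h3 b hb], by simp only; rw [h5]; rfl,
      by simp only; rw [h4]; rfl⟩
  · refine no_mono hM hMi hA (fun i => e i) H (hH.trans hMm.symm) ?_
    intro i hi j hj hij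
    have h1 := hs {i, j} (by
      intro x hx
      simp only [Finset.coe_insert, Finset.coe_singleton, mem_insert_iff, mem_singleton_iff] at hx
      rcases hx with rfl | rfl <;> assumption) (Finset.card_pair hij.ne)
    exact (hc i j hij).1 h1

/-! ### The cofinal sequence -/

theorem exists_cofinal {κ : Cardinal.{0}} (hκ : κ.IsSingular) :
    ∃ h : κ.ord.cof.ord.ToType → Cardinal.{0}, (∀ i, h i < κ) ∧ ∀ x < κ, ∃ i, x ≤ h i := by
  obtain ⟨S, hS, hSc⟩ := Order.exists_cof_eq (κ.ord.ToType)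
  rw [Ordinal.cof_toType] at hSc
  have h1 : #(κ.ord.cof.ord.ToType) = #S := by rw [Cardinal.mk_ord_toType, hSc]
  obtain ⟨σ⟩ := Cardinal.eq.1 h1
  refine ⟨fun i => #(Iio (σ i : κ.ord.ToType)), fun i => Cardinal.mk_Iio_toType_ord_lt _, ?_⟩
  intro x hx
  have h2 : x.ord < Ordinal.type (α := κ.ord.ToType) (· < ·) := by
    rw [Ordinal.type_toType]
    exact Cardinal.ord_lt_ord.2 hx
  obtain ⟨y, hy⟩ := Ordinal.typein_surj (α := κ.ord.ToType) (· < ·) h2
  obtain ⟨s, hs, hys⟩ := hS y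
  refine ⟨σ.symm ⟨s, hs⟩, ?_⟩
  have h3 : #(Iio y) = x := by
    have := Ordinal.card_typein (r := ((· < ·) : κ.ord.ToType → κ.ord.ToType → Prop)) y
    rw [hy, Cardinal.card_ord] at this
    exact this.symm
  rw [← h3]
  apply Cardinal.mk_le_mk_of_subset
  intro z hz
  simp only [Equiv.apply_symm_apply]
  exact lt_of_lt_of_le hz hys

theorem exists_seq {κ : Cardinal.{0}} (hκ : κ.IsSingular) :
    ∃ f : κ.ord.cof.ord.ToType → Cardinal.{0}, (∀ i, (f i).IsRegular) ∧
      (∀ i, κ.ord.cof < f i) ∧ StrictMono f ∧ (∀ i, f i < κ) ∧ ∀ x < κ, ∃ i, x ≤ f i := by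
  obtain ⟨h, h1, h2⟩ := exists_cofinal hκ
  have hlim := hκ.isSuccLimit
  have hcofreg : (κ.ord.cof).IsRegular := Cardinal.isRegular_cof
    (Cardinal.isSuccLimit_ord hκ.aleph0_le)
  have wf : WellFounded ((· < ·) : κ.ord.cof.ord.ToType → κ.ord.cof.ord.ToType → Prop) :=
    wellFounded_lt
  let f : κ.ord.cof.ord.ToType → Cardinal.{0} := wf.fix (fun i F =>
    Order.succ (max (h i) (max κ.ord.cof (⨆ j : Iio i, F j.1 j.2))))
  have hf : ∀ i, f i = Order.succ (max (h i) (max κ.ord.cof (⨆ j : Iio i, f j.1))) := by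
    intro i
    exact wf.fix_eq _ i
  have hlt : ∀ i, f i < κ := by
    intro i
    induction i using WellFoundedLT.induction with
    | ind i ih =>
      rw [hf]
      apply hlim.succ_lt
      apply max_lt (h1 i)
      apply max_lt hκ.cof_ord_lt
      apply Cardinal.iSup_lt_of_lt_cof_ord
      · exact Cardinal.mk_Iio_toType_ord_lt i
      · intro j
        exact ih j.1 j.2
  have hle : ∀ i, max (h i) (max κ.ord.cof (⨆ j : Iio i, f j.1)) < f i := by
    intro i
    rw [hf i]
    exact Order.lt_succ _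
  refine ⟨f, ?_, ?_, ?_, hlt, ?_⟩
  · intro i
    rw [hf]
    apply Cardinal.isRegular_succ
    exact hcofreg.aleph0_le.trans ((le_max_left _ _).trans (le_max_right _ _))
  · intro i
    exact ((le_max_left _ _).trans (le_max_right _ _)).trans_lt (hle i)
  · intro i j hij
    refine lt_of_le_of_lt ?_ (hle j)
    refine le_trans ?_ ((le_max_right _ _).trans (le_max_right _ _))
    exact le_ciSup (f := fun l : Iio j => f l.1) Cardinal.bddAbove_of_small ⟨i, hij⟩
  · intro x hx
    obtain ⟨i, hi⟩ := h2 x hx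
    exact ⟨i, hi.trans ((le_max_left _ _).trans (hle i).le)⟩

/-- The general negative relation. -/
theorem neg_general {κ : Cardinal.{0}} (hκ : κ.IsSingular)
    (hcf : ¬ Arrow κ.ord.cof κ.ord.cof κ.ord.cof 2) : ¬ Arrow (2 ^ (2 ^< κ)) κ 5 4 := by
  classical
  obtain ⟨f, hfr, hfc, hfm, hfl, hfx⟩ := exists_seq hκ
  have hMm : #(κ.ord.cof.ord.ToType) = κ.ord.cof := Cardinal.mk_ord_toType _
  have hcofreg : (κ.ord.cof).IsRegular := Cardinal.isRegular_cof
    (Cardinal.isSuccLimit_ord hκ.aleph0_le)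
  let P : Par :=
    { M := κ.ord.cof.ord.ToType
      hM := by rw [hMm]; exact hcofreg
      hMi := fun i => by rw [hMm]; exact Cardinal.mk_Iio_toType_ord_lt i
      κ := f
      κr := hfr
      κM := fun i => by rw [hMm]; exact hfc i
      κm := hfm }
  have hlam : P.lam = 2 ^< κ := by
    have := P.nonempty
    apply le_antisymm
    · exact ciSup_le fun i => Cardinal.le_powerlt 2 (hfl i)
    · rw [Cardinal.powerlt_le]
      intro x hx
      obtain ⟨i, hi⟩ := hfx x hx
      exact (Cardinal.power_le_power_left two_ne_zero hi).trans (P.le_lam i)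
  unfold Arrow at hcf
  push Not at hcf
  obtain ⟨α, c, hα, hc1, hc2⟩ := hcf
  obtain ⟨e⟩ := Cardinal.eq.1 (hMm.trans hα.symm)
  have key : ∀ I : Set P.M, (∀ m, ∃ i ∈ I, m < i) → ∀ v : Bool,
      ∃ i ∈ I, ∃ j ∈ I, i < j ∧ c {e i, e j} ≠ v := by
    intro I hI v
    by_contra hcon
    push Not at hcon
    have h2 : #I = #P.M := Setting.card_of_unb (Q := P.toSetting) hI
    have h3 : #(e '' I : Set α) = κ.ord.cof := by
      rw [Cardinal.mk_image_eq e.injective, h2]
      exact hMm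
    have h4 : ∀ s : Finset α, (s : Set α) ⊆ e '' I → s.card = 2 → c s = v := by
      intro s hs hs2
      obtain ⟨x, y, hxy, rfl⟩ := Finset.card_eq_two.1 hs2
      obtain ⟨i, hi, rfl⟩ := hs (show x ∈ (({x, y} : Finset α) : Set α) by simp)
      obtain ⟨j, hj, rfl⟩ := hs (show y ∈ (({e i, y} : Finset α) : Set α) by simp)
      have hij : i ≠ j := fun h => hxy (by rw [h])
      rcases lt_or_gt_of_ne hij with h | h
      · exact hcon i hi j hj h
      · rw [Finset.pair_comm]
        exact hcon j hj i hi h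
    cases v with
    | false =>
      obtain ⟨s, hs, hs2, hs3⟩ := hc1 _ h3
      exact hs3 (h4 s hs hs2)
    | true =>
      obtain ⟨s, hs, hs2, hs3⟩ := hc2 _ h3
      exact hs3 (h4 s hs hs2)
  obtain ⟨β, d, hβ, hd1, hd2⟩ := neg4 P (fun i j => c {e i, e j}) key κ (fun i => (hfl i).le)
  rw [hlam] at hβ
  intro harr
  rcases harr β d hβ with ⟨H, hH, hs⟩ | ⟨H, hH, hs⟩
  · obtain ⟨s, hs1, hs2, hs3⟩ := hd1 H hH
    rw [hs s hs1 hs2] at hs3
    exact absurd hs3 (by simp)
  · have hH' : #H = ((5 : ℕ) : Cardinal.{0}) := by rw [hH]; norm_num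
    obtain ⟨t, ht, ht5⟩ := Cardinal.mk_set_eq_nat_iff_finset.1 hH'
    obtain ⟨u, hu1, hu2, hu3⟩ := hd2 t ht5
    rw [hs u (by rw [← ht]; exact_mod_cast hu1) hu2] at hu3
    exact absurd hu3 (by simp)

end Pool.Agent.Y408.SG
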